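import Pool.Agent.STR.Stmts

/-!
Squad STR: module LLN1 (the mean of the mean square error of the smoothed number of preimages)
-/

set_option autoImplicit false

namespace Pool.Agent.STR.H58

open Finset Pool.Agent.STR

section av

variable {Ω Ω' : Type} [Fintype Ω] [Fintype Ω']

theorem av_add (f g : Ω → ℝ) : av (fun ω => f ω + g ω) = av f + av g := by
  simp only [av, sum_add_distrib, add_div]

theorem av_sub (f g : Ω → ℝ) : av (fun ω => f ω - g ω) = av f - av g := by
  simp only [av, sum_sub_distrib, sub_div]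

theorem av_mul (c : ℝ) (f : Ω → ℝ) : av (fun ω => c * f ω) = c * av f := by
  simp only [av, ← mul_sum, mul_div_assoc]

theorem av_div (c : ℝ) (f : Ω → ℝ) : av (fun ω => f ω / c) = av f / c := by
  simp only [av, ← sum_div]
  ring

theorem av_sum {ι : Type} (s : Finset ι) (f : ι → Ω → ℝ) :
    av (fun ω => ∑ i ∈ s, f i ω) = ∑ i ∈ s, av (f i) := by
  simp only [av, ← sum_div]
  rw [sum_comm]

theorem av_const [Nonempty Ω] (c : ℝ) : av (fun _ : Ω => c) = c := by
  have h : (Fintype.card Ω : ℝ) ≠ 0 := by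
    exact_mod_cast Fintype.card_ne_zero
  simp only [av, sum_const, card_univ, nsmul_eq_mul]
  field_simp

theorem av_mono {f g : Ω → ℝ} (h : ∀ ω, f ω ≤ g ω) : av f ≤ av g := by
  unfold av
  exact div_le_div_of_nonneg_right (sum_le_sum fun ω _ => h ω) (Nat.cast_nonneg _)

theorem av_le [Nonempty Ω] {f : Ω → ℝ} {c : ℝ} (h : ∀ ω, f ω ≤ c) : av f ≤ c := by
  rw [← av_const (Ω := Ω) c]
  exact av_mono h

/-- Fubini -/
theorem av_comm (f : Ω → Ω' → ℝ) :
    av (fun ω => av (fun ω' => f ω ω')) = av (fun ω' => av (fun ω => f ω ω')) := by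
  simp only [av, ← sum_div]
  rw [sum_comm, div_div, div_div, mul_comm]

/-- the average of a product of functions of independent variables -/
theorem av_prod {Z : Type} [Fintype Z] [DecidableEq Z] (f : Z → Ω → ℝ) :
    av (fun ω : Z → Ω => ∏ i, f i (ω i)) = ∏ i, av (f i) := by
  classical
  unfold av
  rw [prod_div_distrib, prod_univ_sum, prod_const, card_univ, Fintype.card_fun]
  push_cast
  rfl

theorem av_eval {Z : Type} [Fintype Z] [DecidableEq Z] [Nonempty Ω] (z : Z) (X : Ω → ℝ) :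
    av (fun ω : Z → Ω => X (ω z)) = av X := by
  have h := av_prod (fun (i : Z) (j : Ω) => if i = z then X j else 1)
  have e1 : (fun ω : Z → Ω => ∏ i, (if i = z then X (ω i) else 1)) = fun ω => X (ω z) := by
    funext ω
    rw [prod_ite_eq' univ z (fun i => X (ω i)), if_pos (mem_univ z)]
  have e2 : ∀ i : Z, av (fun j : Ω => if i = z then X j else 1) = if i = z then av X else 1 := by
    intro i
    by_cases hi : i = z
    · simp only [hi, if_true]
    · simp only [hi, if_false]
      exact av_const 1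
  rw [e1] at h
  rw [h]
  simp only [e2]
  rw [prod_ite_eq' univ z (fun _ => av X), if_pos (mem_univ z)]

theorem av_eval2 {Z : Type} [Fintype Z] [DecidableEq Z] [Nonempty Ω] {z z' : Z} (hz : z ≠ z')
    (X Y : Ω → ℝ) : av (fun ω : Z → Ω => X (ω z) * Y (ω z')) = av X * av Y := by
  have h := av_prod (fun (i : Z) (j : Ω) => (if i = z then X j else 1) *
    (if i = z' then Y j else 1))
  have e1 : (fun ω : Z → Ω => ∏ i, ((if i = z then X (ω i) else 1) *
      (if i = z' then Y (ω i) else 1))) = fun ω => X (ω z) * Y (ω z') := by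
    funext ω
    rw [prod_mul_distrib, prod_ite_eq' univ z (fun i => X (ω i)), if_pos (mem_univ z),
      prod_ite_eq' univ z' (fun i => Y (ω i)), if_pos (mem_univ z')]
  have e2 : ∀ i : Z, av (fun j : Ω => (if i = z then X j else 1) * (if i = z' then Y j else 1)) =
      (if i = z then av X else 1) * (if i = z' then av Y else 1) := by
    intro i
    by_cases hi : i = z
    · have hi' : i ≠ z' := fun h => hz (hi ▸ h)
      simp only [if_pos hi, if_neg hi', mul_one]
    · by_cases hi' : i = z'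
      · simp only [if_neg hi, if_pos hi', one_mul]
      · simp only [if_neg hi, if_neg hi', one_mul]
        exact av_const 1
  rw [e1] at h
  rw [h]
  simp only [e2]
  rw [prod_mul_distrib, prod_ite_eq' univ z (fun _ => av X), if_pos (mem_univ z),
    prod_ite_eq' univ z' (fun _ => av Y), if_pos (mem_univ z')]

end av

/-- the second moment of a sum of independent centered variables and a constant -/
theorem av_sq {ι Z Ω : Type} [Fintype Z] [DecidableEq Z] [Fintype Ω] [Nonempty Ω]
    (S : Finset ι) (σ : ι → Z) (hσ : Set.InjOn σ S) (X : Ω → ℝ) (hX : av X = 0) (c : ℝ) :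
    av (fun ω : Z → Ω => (∑ R ∈ S, X (ω (σ R)) + c) ^ 2) =
      (S.card : ℝ) * av (fun ω => X ω ^ 2) + c ^ 2 := by
  classical
  have e : (fun ω : Z → Ω => (∑ R ∈ S, X (ω (σ R)) + c) ^ 2) = fun ω =>
      (∑ R ∈ S, ∑ R' ∈ S, X (ω (σ R)) * X (ω (σ R'))) + (2 * c * (∑ R ∈ S, X (ω (σ R))) +
        c ^ 2) := by
    funext ω
    rw [← sum_mul_sum]
    ring
  rw [e, av_add, av_add, av_mul, av_const, av_sum, av_sum]
  have h1 : ∀ R ∈ S, av (fun ω : Z → Ω => ∑ R' ∈ S, X (ω (σ R)) * X (ω (σ R'))) =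
      av (fun ω => X ω ^ 2) := by
    intro R hR
    rw [av_sum, sum_eq_single R]
    · have := av_eval (Ω := Ω) (σ R) (fun ω => X ω * X ω)
      rw [this]
      congr 1
      funext ω
      ring
    · intro R' hR' hne
      rw [av_eval2 (fun h => hne (hσ hR' hR h.symm)) X X, hX, zero_mul]
    · intro h
      exact absurd hR h
  rw [sum_congr rfl h1, sum_const, nsmul_eq_mul]
  have h2 : ∀ R ∈ S, av (fun ω : Z → Ω => X (ω (σ R))) = 0 := by
    intro R _
    rw [av_eval, hX]
  rw [sum_congr rfl h2, sum_const_zero, mul_zero, zero_add]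

/-- changing different sets of coordinates gives different points -/
theorem flS_inj {β : Type} [DecidableEq β] (z : β → Bool) : Function.Injective (flS z) := by
  intro R R' h
  ext i
  have h1 := congrFun h i
  unfold flS at h1
  by_cases hi : i ∈ R <;> by_cases hi' : i ∈ R'
  · exact ⟨fun _ => hi', fun _ => hi⟩
  · rw [if_pos hi, if_neg hi'] at h1
    cases hz : z i <;> rw [hz] at h1 <;> exact absurd h1 (by decide)
  · rw [if_neg hi, if_pos hi'] at h1
    cases hz : z i <;> rw [hz] at h1 <;> exact absurd h1 (by decide)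
  · exact ⟨fun h => absurd h hi, fun h => absurd h hi'⟩

/-- **LLN1** -/
theorem lln1 : Lln1Stmt := by
  intro α β Ω _ _ _ _ _ _ Φ g r m τ hr hτ hm hg
  classical
  have hC : (0 : ℝ) < ((Fintype.card β).choose r : ℝ) := by
    exact_mod_cast Nat.choose_pos hr
  obtain ⟨C, hCdef⟩ : ∃ C : ℝ, C = ((Fintype.card β).choose r : ℝ) := ⟨_, rfl⟩
  rw [← hCdef] at hC ⊢
  have hcomm : av (fun ω : (β → Bool) → Ω => err Φ g r ω) =
      av (fun p : (α → Bool) × (β → Bool) => av (fun ω : (β → Bool) → Ω =>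
        (smo Φ r ω p.1 p.2 - g p.1) ^ 2)) := by
    unfold err
    exact av_comm _
  rw [hcomm]
  refine av_le fun p => ?_
  obtain ⟨y, z⟩ := p
  obtain ⟨μ, hμ⟩ : ∃ μ, μ = av (fun ω => (cnt (Φ ω) y : ℝ)) := ⟨_, rfl⟩
  have hcard : ((powersetCard r (univ : Finset β)).card : ℝ) = C := by
    rw [card_powersetCard, card_univ, hCdef]
  have e : (fun ω : (β → Bool) → Ω => (smo Φ r ω y z - g y) ^ 2) = fun ω =>
      (∑ R ∈ powersetCard r (univ : Finset β),
        ((cnt (Φ (ω (flS z R))) y : ℝ) - μ) + C * (μ - g y)) ^ 2 / C ^ 2 := by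
    funext ω
    unfold smo
    rw [sum_sub_distrib, sum_const, nsmul_eq_mul, hcard, ← hCdef, ← div_pow]
    congr 1
    field_simp
    ring
  show av (fun ω : (β → Bool) → Ω => (smo Φ r ω y z - g y) ^ 2) ≤ m / C + τ ^ 2
  have hX0 : av (fun ω => (cnt (Φ ω) y : ℝ) - μ) = 0 := by
    rw [av_sub, av_const, ← hμ, sub_self]
  rw [e, av_div, av_sq _ (flS z) ((flS_inj z).injOn) (fun ω => (cnt (Φ ω) y : ℝ) - μ) hX0
    (C * (μ - g y)), hcard]
  have hvar : av (fun ω => ((cnt (Φ ω) y : ℝ) - μ) ^ 2) ≤ m := by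
    have e2 : (fun ω => ((cnt (Φ ω) y : ℝ) - μ) ^ 2) = fun ω => (cnt (Φ ω) y : ℝ) ^ 2 -
        (2 * μ * (cnt (Φ ω) y : ℝ) - μ ^ 2) := by
      funext ω
      ring
    rw [e2, av_sub, av_sub, av_mul, av_const, ← hμ]
    have := hm y
    nlinarith [sq_nonneg μ]
  have h1 : (μ - g y) ^ 2 ≤ τ ^ 2 := by
    have h2 := hg y
    rw [← hμ] at h2
    exact sq_le_sq' (by linarith [(abs_le.1 h2).1]) (abs_le.1 h2).2
  have h3 : (C * av (fun ω => ((cnt (Φ ω) y : ℝ) - μ) ^ 2) + (C * (μ - g y)) ^ 2) / C ^ 2 =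
      av (fun ω => ((cnt (Φ ω) y : ℝ) - μ) ^ 2) / C + (μ - g y) ^ 2 := by
    field_simp
  rw [h3]
  exact add_le_add (div_le_div_of_nonneg_right hvar hC.le) h1

end Pool.Agent.STR.H58
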