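import Pool.Agent.Helper58_STR.Lln1

/-!
Squad STR: module MIX (the main inequality)
-/

set_option autoImplicit false

namespace Pool.Agent.STR.H58

open Finset Pool.Agent.STR

theorem av_equiv {Ω Ω' : Type} [Fintype Ω] [Fintype Ω'] (σ : Ω ≃ Ω') (f : Ω' → ℝ) :
    av (fun ω => f (σ ω)) = av f := by
  unfold av
  rw [Fintype.card_congr σ, σ.sum_comp]

/-- averages over functions on a sum of two index types -/
theorem av_elim {α β : Type} [Fintype α] [DecidableEq α] [Fintype β] [DecidableEq β]
    (f : (α ⊕ β → Bool) → ℝ) :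
    av (fun p : (α → Bool) × (β → Bool) => f (Sum.elim p.1 p.2)) = av f := by
  have h := av_equiv (Equiv.sumArrowEquivProdArrow α β Bool).symm f
  rw [← h]
  rfl

theorem av_prodmk {Ω Ω' : Type} [Fintype Ω] [Fintype Ω'] (f : Ω × Ω' → ℝ) :
    av f = av (fun ω => av (fun ω' => f (ω, ω'))) := by
  unfold av
  rw [Fintype.card_prod, Fintype.sum_prod_type]
  simp only [← sum_div]
  push_cast
  rw [div_div, mul_comm (Fintype.card Ω' : ℝ)]

theorem le_av {Ω : Type} [Fintype Ω] [Nonempty Ω] {f : Ω → ℝ} {c : ℝ} (h : ∀ ω, c ≤ f ω) :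
    c ≤ av f := by
  rw [← av_const (Ω := Ω) c]
  exact av_mono h

theorem exists_le_av {Ω : Type} [Fintype Ω] [Nonempty Ω] (f : Ω → ℝ) : ∃ ω, f ω ≤ av f := by
  by_contra hcon
  push Not at hcon
  have hlt : (∑ _ω : Ω, av f) < ∑ ω, f ω :=
    sum_lt_sum_of_nonempty univ_nonempty fun ω _ => hcon ω
  rw [sum_const, card_univ, nsmul_eq_mul] at hlt
  have hc : (0 : ℝ) < Fintype.card Ω := by exact_mod_cast Fintype.card_pos
  have : (Fintype.card Ω : ℝ) * av f = ∑ ω, f ω := by
    unfold av
    field_simp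
  linarith

theorem av_nonneg {Ω : Type} [Fintype Ω] {f : Ω → ℝ} (h : ∀ ω, 0 ≤ f ω) : 0 ≤ av f :=
  div_nonneg (sum_nonneg fun ω _ => h ω) (Nat.cast_nonneg _)

/-- Jensen's inequality for the square root -/
theorem av_sqrt {Ω : Type} [Fintype Ω] [Nonempty Ω] {f : Ω → ℝ} (h : ∀ ω, 0 ≤ f ω) :
    av (fun ω => Real.sqrt (f ω)) ≤ Real.sqrt (av f) := by
  refine Real.le_sqrt_of_sq_le ?_
  obtain ⟨m, hm⟩ : ∃ m, m = av (fun ω => Real.sqrt (f ω)) := ⟨_, rfl⟩
  rw [← hm]
  have h1 : 0 ≤ av (fun ω => (Real.sqrt (f ω) - m) ^ 2) := av_nonneg fun ω => sq_nonneg _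
  have h2 : (fun ω => (Real.sqrt (f ω) - m) ^ 2) = fun ω =>
      f ω - (2 * m * Real.sqrt (f ω) - m ^ 2) := by
    funext ω
    have := Real.sq_sqrt (h ω)
    linear_combination this
  rw [h2, av_sub, av_sub, av_mul, av_const, ← hm] at h1
  nlinarith

/-- the restriction to the points with last coordinate false -/
def res {α β : Type} (h : (α ⊕ (β ⊕ Unit) → Bool) → ℝ) (x : α ⊕ β → Bool) : ℝ :=
  h (Sum.elim (fun a => x (Sum.inl a)) (Sum.elim (fun b => x (Sum.inr b)) fun _ => false))

theorem res_lip {α β : Type} [DecidableEq α] [DecidableEq β]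
    {h : (α ⊕ (β ⊕ Unit) → Bool) → ℝ} (hh : Lip h) : Lip (res h) := by
  intro x i
  obtain ⟨X, hX⟩ : ∃ X : α ⊕ (β ⊕ Unit) → Bool, X = Sum.elim (fun a => x (Sum.inl a))
    (Sum.elim (fun b => x (Sum.inr b)) fun _ => false) := ⟨_, rfl⟩
  have key : ∃ i', Sum.elim (fun a => fl x i (Sum.inl a))
      (Sum.elim (fun b => fl x i (Sum.inr b)) fun _ => false) = fl X i' := by
    rcases i with a | b
    · refine ⟨Sum.inl a, ?_⟩
      funext j
      rw [hX]
      unfold fl
      rcases j with a' | b' | ⟨⟩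
      · by_cases h1 : a' = a
        · subst h1
          rw [Function.update_self]
          simp only [Sum.elim_inl]
          rw [Function.update_self]
        · rw [Function.update_of_ne (by simpa using h1)]
          simp only [Sum.elim_inl]
          rw [Function.update_of_ne (by simpa using h1)]
      · rw [Function.update_of_ne (by simp)]
        simp only [Sum.elim_inr, Sum.elim_inl]
        rw [Function.update_of_ne (by simp)]
      · rw [Function.update_of_ne (by simp)]
        rfl
    · refine ⟨Sum.inr (Sum.inl b), ?_⟩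
      funext j
      rw [hX]
      unfold fl
      rcases j with a' | b' | ⟨⟩
      · rw [Function.update_of_ne (by simp)]
        simp only [Sum.elim_inl]
        rw [Function.update_of_ne (by simp)]
      · by_cases h1 : b' = b
        · subst h1
          rw [Function.update_self]
          simp only [Sum.elim_inl, Sum.elim_inr]
          rw [Function.update_self]
        · rw [Function.update_of_ne (by simpa using h1)]
          simp only [Sum.elim_inl, Sum.elim_inr]
          rw [Function.update_of_ne (by simpa using h1)]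
      · rw [Function.update_of_ne (by simp)]
        rfl
  obtain ⟨i', hi'⟩ := key
  have := hh X i'
  rw [← hi', hX] at this
  exact this

/-- the last coordinate costs at most one -/
theorem last_coord {α β : Type} [Fintype α] [DecidableEq α] [Fintype β] [DecidableEq β]
    {h : (α ⊕ (β ⊕ Unit) → Bool) → ℝ} (hh : Lip h) (g : (α → Bool) → ℝ) (hg : ∀ y, 0 ≤ g y)
    (hav : av g = 1) :
    |av (fun p : (α → Bool) × (β ⊕ Unit → Bool) => g p.1 * h (Sum.elim p.1 p.2)) -
      av (fun p : (α → Bool) × (β → Bool) => g p.1 * res h (Sum.elim p.1 p.2))| ≤ 1 := by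
  rw [av_prodmk, av_prodmk (Ω' := β → Bool), ← av_sub]
  have key : ∀ y : α → Bool, |av (fun z : β ⊕ Unit → Bool => g y * h (Sum.elim y z)) -
      av (fun z : β → Bool => g y * res h (Sum.elim y z))| ≤ g y := by
    intro y
    have e1 : av (fun z : β ⊕ Unit → Bool => g y * h (Sum.elim y z)) =
        av (fun z : β → Bool => av (fun t : Unit → Bool => g y * h (Sum.elim y (Sum.elim z t))))
        := by
      rw [← av_elim, av_prodmk]
    rw [e1, ← av_sub]
    have h2 : ∀ z : β → Bool, |av (fun t : Unit → Bool => g y * h (Sum.elim y (Sum.elim z t))) -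
        g y * res h (Sum.elim y z)| ≤ g y := by
      intro z
      have e2 : g y * res h (Sum.elim y z) = av (fun _ : Unit → Bool =>
        g y * res h (Sum.elim y z)) := (av_const _).symm
      rw [e2, ← av_sub]
      have h3 : ∀ t : Unit → Bool, |g y * h (Sum.elim y (Sum.elim z t)) -
          g y * res h (Sum.elim y z)| ≤ g y := by
        intro t
        rw [← mul_sub, abs_mul, abs_of_nonneg (hg y)]
        refine mul_le_of_le_one_right (hg y) ?_
        have e3 : res h (Sum.elim y z) = h (Sum.elim y (Sum.elim z fun _ => false)) := rfl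
        rw [e3]
        cases ht : t () with
        | false =>
          have : t = fun _ => false := funext fun _ => ht
          rw [this, sub_self, abs_zero]
          exact zero_le_one
        | true =>
          have : Sum.elim y (Sum.elim z t) = fl (Sum.elim y (Sum.elim z fun _ => false))
              (Sum.inr (Sum.inr ())) := by
            funext j
            unfold fl
            rcases j with a' | b' | ⟨⟩
            · simp
            · simp
            · simp [ht]
          rw [this]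
          exact hh _ _
      rw [abs_le]
      constructor
      · have := le_av (f := fun t : Unit → Bool => g y * h (Sum.elim y (Sum.elim z t)) -
          g y * res h (Sum.elim y z)) (fun t => (abs_le.1 (h3 t)).1)
        exact this
      · exact av_le fun t => (abs_le.1 (h3 t)).2
    rw [abs_le]
    constructor
    · exact le_av fun z => (abs_le.1 (h2 z)).1
    · exact av_le fun z => (abs_le.1 (h2 z)).2
  rw [abs_le]
  constructor
  · rw [← hav, ← sub_nonneg]
    have : (0 : ℝ) ≤ av (fun y : α → Bool => (av (fun z : β ⊕ Unit → Bool =>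
        g y * h (Sum.elim y z)) - av (fun z : β → Bool => g y * res h (Sum.elim y z))) + g y) :=
      av_nonneg fun y => by linarith [(abs_le.1 (key y)).1]
    rw [av_add] at this
    linarith
  · rw [← hav]
    exact av_mono fun y => (abs_le.1 (key y)).2

theorem two_card {α β : Type} [Fintype α] [DecidableEq α] [Fintype β] [DecidableEq β]
    (n : ℕ) (h : n = Fintype.card (α ⊕ β → Bool)) :
    2 * n = Fintype.card (α ⊕ (β ⊕ Unit) → Bool) := by
  rw [h]
  simp only [Fintype.card_fun, Fintype.card_sum, Fintype.card_bool, Fintype.card_unit]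
  ring

/-- the average of the density -/
theorem av_den {γ : Type} [Fintype γ] [DecidableEq γ] (e : ℝ) (A : Finset γ)
    (h : 2 * A.card = Fintype.card γ) (h0 : 0 < A.card) : av (den e A) = 1 := by
  unfold av den
  rw [sum_add_distrib, sum_const, card_univ, nsmul_eq_mul]
  have e1 : (∑ x : γ, if x ∈ A then 2 * (1 - e) else 0) = A.card * (2 * (1 - e)) := by
    rw [← sum_filter, filter_mem_eq_inter, univ_inter, sum_const, nsmul_eq_mul]
  rw [e1, ← h]
  push_cast
  have : (A.card : ℝ) ≠ 0 := by exact_mod_cast h0.ne'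
  field_simp
  ring

/-- **MIX** -/
theorem mix (hNOI : NoiStmt) (hPOT : PotStmt) (hCHN : ChnStmt) (hLLN1 : Lln1Stmt)
    (hLLN2 : Lln2Stmt) (hTGT : TgtStmt) (hSBD : SbdStmt) (hMAT : MatStmt) : MixStmt := by
  intro α β _ _ _ _ _ A e ρ r he he1 hρ hρ1 hr hA
  classical
  have hA2 := two_card (α := α) (β := β) A.card hA
  have hApos : 0 < A.card := by rw [hA]; exact Fintype.card_pos
  -- the density
  obtain ⟨F, hF⟩ : ∃ F : (α → Bool) → ℝ, F = mar (den e A) := ⟨_, rfl⟩
  have hden : ∀ x, e ≤ den e A x ∧ den e A x ≤ 2 := by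
    intro x
    unfold den
    split_ifs
    · constructor <;> linarith
    · constructor <;> linarith
  have hFb : ∀ y, e ≤ F y ∧ F y ≤ 2 := by
    intro y
    rw [hF]
    unfold mar
    exact ⟨le_av fun z => (hden _).1, av_le fun z => (hden _).2⟩
  have hFav : av F = 1 := by
    rw [hF]
    unfold mar
    rw [← av_den e A hA2 hApos, ← av_elim (den e A), av_prodmk]
  obtain ⟨hg, hgav, -⟩ := hNOI α ρ F e 2 hρ.le hρ1.le (fun x => (hFb x).1) (fun x => (hFb x).2)
  obtain ⟨g, hgdef⟩ : ∃ g : (α → Bool) → ℝ, g = T ρ F := ⟨_, rfl⟩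
  rw [hFav] at hgav
  obtain ⟨u, hu1, hu2, hu3, hu4⟩ := hPOT α ρ F hρ hρ1 (fun x => by
    rw [abs_le]
    constructor <;> linarith [(hFb x).1, (hFb x).2])
  rw [hFav] at hu1
  rw [← hgdef] at hg hgav hu1 hu3
  obtain ⟨C, hC⟩ : ∃ C : ℝ, C = 12 / (1 - ρ) := ⟨_, rfl⟩
  rw [← hC] at hu2 hu3 hu4
  have hC1 : 1 ≤ C := by
    rw [hC, le_div_iff₀ (by linarith)]
    linarith
  -- the size
  obtain ⟨n, hn⟩ : ∃ n : ℝ, n = (Fintype.card α : ℝ) + Fintype.card β := ⟨_, rfl⟩
  have hn1 : 1 ≤ n := by
    have h1 : (1 : ℝ) ≤ Fintype.card α := by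
      exact_mod_cast Fintype.card_pos (α := α)
    have h2 : (0 : ℝ) ≤ Fintype.card β := Nat.cast_nonneg _
    rw [hn]
    linarith
  have hsn : 0 < Real.sqrt n := Real.sqrt_pos.2 (by linarith)
  obtain ⟨Ω, _, _, Φ, hst, hmv, hpre, hlaw⟩ := hCHN α e C g u he he1 hC1 hg hu1 hu2 hu3 hu4
    (1 / Real.sqrt n) (by positivity)
  -- the law of large numbers
  have hlln := hLLN1 α β Ω Φ g r _ (1 / Real.sqrt n) hr (by positivity) hpre hlaw
  have hτ : (1 / Real.sqrt n) ^ 2 = 1 / n := by
    rw [div_pow, one_pow, Real.sq_sqrt (by linarith)]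
  rw [hτ] at hlln
  have hsbd := hSBD α β Ω Φ _ _ hst hmv
  -- the distance of the law
  obtain ⟨D, hD⟩ : ∃ D : ((β → Bool) → Ω) → ℝ, D = fun ω =>
      e * Real.sqrt (n + 1) / 2 + Real.sqrt (Fintype.card β + 1) +
        Real.sqrt ((1 - ρ) * Fintype.card α) + 1 + (r + Real.sqrt (err Φ g r ω) *
          Real.sqrt n / 2) := ⟨_, rfl⟩
  have hdist : ∀ (ω : (β → Bool) → Ω) (h : (α ⊕ (β ⊕ Unit) → Bool) → ℝ), Lip h →
      (∑ x ∈ A, h x) / A.card - av (fun x => h (phi0 Φ ω x)) ≤ D ω := by
    intro ω h hh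
    have t1 := hTGT α (β ⊕ Unit) A e ρ h he he1 hρ.le hρ1.le hA2 hh
    rw [← hF, ← hgdef, Fintype.card_sum, Fintype.card_unit] at t1
    push_cast at t1
    have t2 := last_coord hh g (fun y => he.le.trans (hg y).1) hgav
    have t3 := hLLN2 α β Ω Φ g r ω (res h) hr hgav (res_lip hh)
    have t4 : av (fun p : (α → Bool) × (β → Bool) => res h (Sum.elim (Φ (ω p.2) p.1) p.2)) =
        av (fun x => h (phi0 Φ ω x)) := by
      rw [← av_elim (fun x => h (phi0 Φ ω x))]
      rfl
    rw [t4, ← hn] at t3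
    rw [← add_assoc, ← hn] at t1
    have t1' := (abs_le.1 t1).2
    have t2' := (abs_le.1 t2).2
    have t3' := (abs_le.1 t3).1
    rw [hD]
    simp only
    linarith
  -- the choice of the seeds
  obtain ⟨ω, hω⟩ := exists_le_av (fun ω : (β → Bool) → Ω =>
    av (fun x : α ⊕ β → Bool => ∑ i, (hammingDist (phi0 Φ ω x) (phi0 Φ ω (fl x i)) : ℝ)) +
      2 * n * D ω)
  rw [av_add, av_mul] at hω
  have hcard : ((Fintype.card (α ⊕ β) : ℕ) : ℝ) = n := by
    rw [Fintype.card_sum, hn]
    push_cast
    rfl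
  obtain ⟨φ, hφ⟩ := hMAT (α ⊕ β) (α ⊕ (β ⊕ Unit)) A (phi0 Φ ω) (D ω) hA (hdist ω)
  rw [hcard] at hφ
  refine ⟨φ, hφ.trans (hω.trans ?_)⟩
  -- the mean of D
  have hDav : av D ≤ e * Real.sqrt (n + 1) / 2 + Real.sqrt (Fintype.card β + 1) +
        Real.sqrt ((1 - ρ) * Fintype.card α) + 1 + (r + Real.sqrt (Real.exp (3 * C / e *
          Real.sqrt (Fintype.card α)) / (Fintype.card β).choose r + 1 / n) *
          Real.sqrt n / 2) := by
    rw [hD, av_add, av_const, av_add, av_const, av_div]
    have e1 : av (fun ω : (β → Bool) → Ω => Real.sqrt (err Φ g r ω) * Real.sqrt n) =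
        Real.sqrt n * av (fun ω : (β → Bool) → Ω => Real.sqrt (err Φ g r ω)) := by
      rw [← av_mul]
      congr 1
      funext ω
      ring
    rw [e1]
    have e2 : av (fun ω : (β → Bool) → Ω => Real.sqrt (err Φ g r ω)) ≤
        Real.sqrt (Real.exp (3 * C / e * Real.sqrt (Fintype.card α)) /
          (Fintype.card β).choose r + 1 / n) :=
      (av_sqrt fun ω => av_nonneg fun p => sq_nonneg _).trans (Real.sqrt_le_sqrt hlln)
    have e3 := mul_le_mul_of_nonneg_left e2 hsn.le
    linarith
  have h2n : 0 ≤ 2 * n := by linarith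
  have hmul := mul_le_mul_of_nonneg_left hDav h2n
  rw [← hn, ← hC]
  have hαn : (Fintype.card α : ℝ) ≤ n := by
    rw [hn]
    linarith [(Nat.cast_nonneg (Fintype.card β) : (0 : ℝ) ≤ Fintype.card β)]
  have hβn : (Fintype.card β : ℝ) ≤ n := by
    rw [hn]
    linarith [(Nat.cast_nonneg (Fintype.card α) : (0 : ℝ) ≤ Fintype.card α)]
  have hexp : (Fintype.card α : ℝ) * Real.exp (C / e + C ^ 2 / e ^ 2) ≤
      n * Real.exp (C / e + C ^ 2 / e ^ 2) :=
    mul_le_mul_of_nonneg_right hαn (Real.exp_pos _).le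
  have key : (Fintype.card α : ℝ) * Real.exp (C / e + C ^ 2 / e ^ 2) +
      Fintype.card β * (1 + 2 * (C / e * Real.sqrt (Fintype.card α))) ≤
      n * Real.exp (C / e + C ^ 2 / e ^ 2) + n +
        Fintype.card β * (2 * (C / e * Real.sqrt (Fintype.card α))) := by
    linarith
  have := add_le_add (hsbd.trans key) hmul
  refine this.trans (le_of_eq ?_)
  ring

end Pool.Agent.STR.H58
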